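import Pool.Agent.Helper96.PH.Defs

/-!
# The windows of a computation

A computation which can be cut into `W` parts with at most `T` different cells is cut greedily; for an unambiguous
program the windows are unique.
-/

set_option autoImplicit false

namespace Pool.Agent.Helper98.PH

open Pool.Agent.Helper74.NW Pool.Agent.Helper96.PH

variable {C W Z : Type} {S K : ℕ} {P : NProg C W Z S} {I : C → W}

/-! ## Lists -/

theorem card_mono {l l' : List C} (h : ∀ c ∈ l, c ∈ l') : Nat.card {c // c ∈ l} ≤ Nat.card {c // c ∈ l'} := by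
  have : Finite {c // c ∈ l'} := (List.finite_toSet l').to_subtype
  exact Nat.card_le_card_of_injective (fun c : {c // c ∈ l} => (⟨c.1, h c.1 c.2⟩ : {c // c ∈ l'}))
    (fun c c' hc => Subtype.ext (congrArg (fun x : {c // c ∈ l'} => x.1) hc))

theorem card_nil : Nat.card {c : C // c ∈ ([] : List C)} = 0 := by
  have : IsEmpty {c : C // c ∈ ([] : List C)} := ⟨fun c => by simpa using c.2⟩
  exact Nat.card_of_isEmpty

/-- The longest initial part with at most `T` different elements. -/
theorem exists_front (T : ℕ) (l : List C) : ∃ k ≤ l.length, Nat.card {c // c ∈ l.take k} ≤ T ∧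
    ∀ j ≤ l.length, Nat.card {c // c ∈ l.take j} ≤ T → j ≤ k := by
  classical
  refine ⟨Nat.findGreatest (fun k => Nat.card {c // c ∈ l.take k} ≤ T) l.length, Nat.findGreatest_le _, ?_,
    fun j hj h => Nat.le_findGreatest hj h⟩
  exact Nat.findGreatest_spec (P := fun k => Nat.card {c // c ∈ l.take k} ≤ T) (Nat.zero_le l.length)
    (by rw [List.take_zero, card_nil]; exact Nat.zero_le _)

/-- A suffix of a list which can be cut into `W` parts can be cut into `W` parts. -/
theorem cut_drop {T : ℕ} : ∀ {V : ℕ} {l : List C}, Cut T V l → ∀ k, Cut T V (l.drop k) := by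
  intro V
  induction V with
  | zero =>
    rintro l ⟨p, h1, h2, h3⟩ k
    refine ⟨p, h1, ?_, h3⟩
    have h4 : p = [] := List.length_eq_zero_iff.1 h1
    subst h4
    have h5 : l = [] := by rw [← h2]; rfl
    rw [h5]
    simp
  | succ V ih =>
    rintro l ⟨p, h1, h2, h3⟩ k
    obtain ⟨x, q, rfl⟩ := List.exists_cons_of_length_eq_add_one h1
    obtain ⟨q', h4, h5, h6⟩ := ih (l := q.flatten) ⟨q, by simpa using h1, rfl,
      fun y hy => h3 y (List.mem_cons_of_mem _ hy)⟩ (k - x.length)
    refine ⟨x.drop k :: q', by simpa using h4, ?_, fun y hy => ?_⟩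
    · rw [List.flatten_cons, h5, ← h2, List.flatten_cons, List.drop_append]
    · rcases List.mem_cons.1 hy with rfl | hy
      · exact (card_mono fun c hc => List.mem_of_mem_drop hc).trans (h3 x List.mem_cons_self)
      · exact h6 y hy

/-- After the longest initial part with at most `T` different elements one part less is enough. -/
theorem cut_drop_front {T V k : ℕ} {l : List C} (h : Cut T (V + 1) l)
    (hk : ∀ j ≤ l.length, Nat.card {c // c ∈ l.take j} ≤ T → j ≤ k) : Cut T V (l.drop k) := by
  obtain ⟨p, h1, h2, h3⟩ := h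
  obtain ⟨x, q, rfl⟩ := List.exists_cons_of_length_eq_add_one h1
  rw [List.flatten_cons] at h2
  have h4 : x.length ≤ k := by
    refine hk _ (by rw [← h2]; simp) ?_
    rw [← h2, List.take_left]
    exact h3 x List.mem_cons_self
  have h5 : Cut T V q.flatten := ⟨q, by simpa using h1, rfl, fun y hy => h3 y (List.mem_cons_of_mem _ hy)⟩
  have h6 := cut_drop h5 (k - x.length)
  rw [← h2, List.drop_append, List.drop_of_length_le h4, List.nil_append]
  exact h6

/-! ## Runs -/

theorem run_nil {s t : Fin S} (h : P.Run I s [] t) : s = t := by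
  cases h
  rfl

theorem run_cons {s t : Fin S} {c : C} {l : List C} (h : P.Run I s (c :: l) t) :
    ∃ next s', P.act s = Sum.inl (c, next) ∧ s' ∈ next (I c) ∧ P.Run I s' l t := by
  cases h with
  | cons _ s' _ _ next _ h1 h2 h3 => exact ⟨next, s', h1, h2, h3⟩

/-- No query is made in a final state. -/
theorem run_final {s t : Fin S} {l : List C} {z : Z} (h : P.Run I s l t) (hz : P.act s = Sum.inr z) : l = [] := by
  cases l with
  | nil => rfl
  | cons c l =>
    obtain ⟨next, s', h1, -, -⟩ := run_cons h
    rw [hz] at h1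
    exact absurd h1 (by simp)

/-- The windows together. -/
theorem run_flatten : ∀ {V : ℕ} {σ : Fin (V + 1) → Fin S} {x : Fin V → List C},
    (∀ j, P.Run I (σ j.castSucc) (x j) (σ j.succ)) → P.Run I (σ 0) (List.ofFn x).flatten (σ (Fin.last V)) := by
  intro V
  induction V with
  | zero =>
    intro σ x _
    rw [List.ofFn_zero]
    exact NProg.Run.nil _
  | succ V ih =>
    intro σ x h
    rw [List.ofFn_succ, List.flatten_cons]
    have h1 := ih (σ := fun j => σ j.succ) (x := fun j => x j.succ) (fun j => by
      have := h j.succ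
      rw [← Fin.succ_castSucc] at this
      exact this)
    exact run_append (h 0) h1

/-- P2a, general form: the windows of a computation which can be cut. -/
theorem exists_windows_aux {T : ℕ} : ∀ {V : ℕ} {s t : Fin S} {l : List C}, P.Run I s l t →
    (∃ z, P.act t = Sum.inr z) → Cut T V l →
    ∃ (x : Fin V → List C) (σ : Fin (V + 1) → Fin S), σ 0 = s ∧ σ (Fin.last _) = t ∧ (List.ofFn x).flatten = l ∧
      ∀ j, P.Run I (σ j.castSucc) (x j) (σ j.succ) ∧ Greedy P T (σ j.succ) (x j) := by
  intro V
  induction V with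
  | zero =>
    rintro s t l h - ⟨p, h1, h2, -⟩
    have h4 : p = [] := List.length_eq_zero_iff.1 h1
    subst h4
    have h5 : l = [] := by rw [← h2]; rfl
    subst h5
    exact ⟨Fin.elim0, fun _ => s, rfl, run_nil h, by simp, fun j => j.elim0⟩
  | succ V ih =>
    intro s t l h hz hc
    obtain ⟨k, hkl, hk1, hk2⟩ := exists_front T l
    obtain ⟨r, hr1, hr2⟩ := run_split (l.take k) (b := l.drop k) (by rw [List.take_append_drop]; exact h)
    obtain ⟨x, σ, h1, h2, h3, h4⟩ := ih hr2 hz (cut_drop_front hc hk2)
    have hg : Greedy P T r (l.take k) := by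
      refine ⟨hk1, fun c next hact => ?_⟩
      rcases Nat.lt_or_ge k l.length with hlt | hge
      · obtain ⟨next', s', h5, -, -⟩ := run_cons (by rw [List.drop_eq_getElem_cons hlt] at hr2; exact hr2)
        rw [hact] at h5
        have h6 : c = l[k] := by
          have := Sum.inl.inj h5
          exact (Prod.mk.inj this).1
        by_contra hT
        push Not at hT
        have h7 := hk2 (k + 1) hlt (by
          refine le_trans (card_mono fun c' hc' => ?_) hT
          rw [List.take_succ_eq_append_getElem hlt, List.mem_append, List.mem_singleton] at hc'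
          rw [List.mem_cons, h6]
          tauto)
        omega
      · rw [List.drop_of_length_le hge] at hr2
        obtain ⟨z, hz⟩ := hz
        rw [run_nil hr2, hz] at hact
        exact absurd hact (by simp)
    refine ⟨Fin.cons (l.take k) x, Fin.cons s σ, rfl, ?_, ?_, ?_⟩
    · rw [← Fin.succ_last, Fin.cons_succ]
      exact h2
    · rw [List.ofFn_succ, Fin.cons_zero, List.flatten_cons]
      simp only [Fin.cons_succ]
      rw [h3, List.take_append_drop]
    · intro j
      refine Fin.cases ?_ (fun j => ?_) j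
      · rw [Fin.castSucc_zero, Fin.cons_zero, Fin.cons_zero, Fin.cons_succ, h1]
        exact ⟨hr1, hg⟩
      · rw [Fin.cons_succ, Fin.cons_succ, ← Fin.succ_castSucc, Fin.cons_succ]
        exact h4 j

/-- P2a: the windows of a computation which can be cut. -/
theorem exists_windows {T w : ℕ} {s t : Fin S} {l : List C} (h : P.Run I s l t) (hz : ∃ z, P.act t = Sum.inr z)
    (hc : Cut T (w + 1) l) :
    ∃ (x : Fin (w + 1) → List C) (σ : Fin (w + 2) → Fin S), σ 0 = s ∧ σ (Fin.last _) = t ∧
      (List.ofFn x).flatten = l ∧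
      ∀ j, P.Run I (σ j.castSucc) (x j) (σ j.succ) ∧ Greedy P T (σ j.succ) (x j) := exists_windows_aux h hz hc

theorem det_aux (hP : Det P) {s q : Fin S} {a : List C} (h : P.Run I s a q) : ∀ {a' : List C} {q' : Fin S},
    P.Run I s a' q' → a.length = a'.length → a = a' ∧ q = q' := by
  induction h with
  | nil s =>
    intro a' q' h' hl
    cases a' with
    | nil => exact ⟨rfl, run_nil h'⟩
    | cons c a' => simp at hl
  | cons s s' t c next l h1 h2 _ ih =>
    intro a' q' h' hl
    cases a' with
    | nil => simp at hl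
    | cons c' a' =>
      obtain ⟨next', s'', h3, h4, h5⟩ := run_cons h'
      rw [h1] at h3
      have h6 := Prod.mk.inj (Sum.inl.inj h3)
      obtain ⟨rfl, rfl⟩ := h6
      have h7 : s' = s'' := hP s c next h1 (I c) h2 h4
      subst h7
      obtain ⟨h8, h9⟩ := ih h5 (by simpa using hl)
      exact ⟨by rw [h8], h9⟩

/-- P2b: deterministic programs are unambiguous. -/
theorem det_unamb (hP : Det P) : Unamb P :=
  fun _ _ _ _ _ _ _ _ _ _ _ h1 _ _ h2 _ _ hl => det_aux hP h1 h2 hl

/-- The first windows are equal. -/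
theorem first_window (hP : Unamb P) {T : ℕ} {a : List C} {s q q' t t' : Fin S} {x x' b b' : List C} {z z' : Z}
    (ha : P.Run I P.start a s) (hx : P.Run I s x q) (hx' : P.Run I s x' q') (hb : P.Run I q b t)
    (hb' : P.Run I q' b' t') (hz : P.act t = Sum.inr z) (hz' : P.act t' = Sum.inr z') (hg : Greedy P T q x)
    (hg' : Greedy P T q' x') (hl : x.length ≤ x'.length) : x = x' ∧ q = q' := by
  obtain ⟨r, hr1, hr2⟩ := run_split (x'.take x.length) (b := x'.drop x.length)
    (by rw [List.take_append_drop]; exact hx')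
  obtain ⟨h1, h2⟩ := hP I (a ++ x) (a ++ x'.take x.length) b (x'.drop x.length ++ b') q r t t' z z'
    (run_append ha hx) hb hz (run_append ha hr1) (run_append hr2 hb') hz' (by
      simp only [List.length_append, List.length_take]
      omega)
  have h3 : x = x'.take x.length := List.append_cancel_left h1
  subst h2
  rcases Nat.lt_or_ge x.length x'.length with hlt | hge
  · exfalso
    rw [List.drop_eq_getElem_cons hlt] at hr2
    obtain ⟨next, s', h4, -, -⟩ := run_cons hr2
    have h5 := hg.2 _ _ h4
    have h6 : Nat.card {b // b ∈ x'[x.length] :: x} ≤ Nat.card {c // c ∈ x'} := by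
      refine card_mono fun c hc => ?_
      rcases List.mem_cons.1 hc with rfl | hc
      · exact List.getElem_mem _
      · rw [h3] at hc
        exact List.mem_of_mem_take hc
    have h7 := hg'.1
    omega
  · rw [List.drop_of_length_le hge] at hr2
    rw [List.take_of_length_le hge] at h3
    exact ⟨h3, run_nil hr2⟩

theorem unique_aux (hP : Unamb P) {T : ℕ} {z z' : Z} : ∀ {V : ℕ} {a : List C} {σ σ' : Fin (V + 1) → Fin S}
    {x x' : Fin V → List C}, P.Run I P.start a (σ 0) → σ 0 = σ' 0 → P.act (σ (Fin.last _)) = Sum.inr z →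
    P.act (σ' (Fin.last _)) = Sum.inr z' →
    (∀ j, P.Run I (σ j.castSucc) (x j) (σ j.succ) ∧ Greedy P T (σ j.succ) (x j)) →
    (∀ j, P.Run I (σ' j.castSucc) (x' j) (σ' j.succ) ∧ Greedy P T (σ' j.succ) (x' j)) → σ = σ' ∧ x = x' := by
  intro V
  induction V with
  | zero =>
    intro a σ σ' x x' _ h0 _ _ _ _
    refine ⟨funext fun j => ?_, funext fun j => j.elim0⟩
    obtain rfl : j = 0 := Fin.eq_zero j
    exact h0
  | succ V ih =>
    intro a σ σ' x x' ha h0 hz hz' h h'
    have hs : ∀ j : Fin V, P.Run I (σ j.castSucc.succ) (x j.succ) (σ j.succ.succ) ∧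
        Greedy P T (σ j.succ.succ) (x j.succ) := fun j => by
      have := h j.succ
      rw [← Fin.succ_castSucc] at this
      exact this
    have hs' : ∀ j : Fin V, P.Run I (σ' j.castSucc.succ) (x' j.succ) (σ' j.succ.succ) ∧
        Greedy P T (σ' j.succ.succ) (x' j.succ) := fun j => by
      have := h' j.succ
      rw [← Fin.succ_castSucc] at this
      exact this
    have hb := run_flatten (σ := fun j => σ j.succ) (x := fun j => x j.succ) fun j => (hs j).1
    have hb' := run_flatten (σ := fun j => σ' j.succ) (x := fun j => x' j.succ) fun j => (hs' j).1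
    have hx := h 0
    have hx' := h' 0
    rw [Fin.castSucc_zero] at hx hx'
    rw [← h0] at hx'
    have hfirst : x 0 = x' 0 ∧ σ (Fin.succ 0) = σ' (Fin.succ 0) := by
      rcases Nat.le_total (x 0).length (x' 0).length with hl | hl
      · exact first_window hP ha hx.1 hx'.1 hb hb' hz hz' hx.2 hx'.2 hl
      · obtain ⟨h1, h2⟩ := first_window hP ha hx'.1 hx.1 hb' hb hz' hz hx'.2 hx.2 hl
        exact ⟨h1.symm, h2.symm⟩
    obtain ⟨h1, h2⟩ := ih (a := a ++ x 0) (σ := fun j => σ j.succ) (σ' := fun j => σ' j.succ)
      (x := fun j => x j.succ) (x' := fun j => x' j.succ) (run_append ha hx.1) hfirst.2 hz hz' hs hs'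
    refine ⟨funext fun j => Fin.cases h0 (fun j => congrFun h1 j) j,
      funext fun j => Fin.cases hfirst.1 (fun j => congrFun h2 j) j⟩

/-- P2c: for an unambiguous program the windows are unique. -/
theorem unique_windows (hP : Unamb P) {T w : ℕ} {σ σ' : Fin (w + 2) → Fin S} {x x' : Fin (w + 1) → List C} {z z' : Z}
    (h0 : σ 0 = P.start) (h0' : σ' 0 = P.start) (hz : P.act (σ (Fin.last _)) = Sum.inr z)
    (hz' : P.act (σ' (Fin.last _)) = Sum.inr z')
    (h : ∀ j, P.Run I (σ j.castSucc) (x j) (σ j.succ) ∧ Greedy P T (σ j.succ) (x j))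
    (h' : ∀ j, P.Run I (σ' j.castSucc) (x' j) (σ' j.succ) ∧ Greedy P T (σ' j.succ) (x' j)) :
    σ = σ' ∧ x = x' :=
  unique_aux hP (a := []) (by rw [h0]; exact NProg.Run.nil _) (h0.trans h0'.symm) hz hz' h h'

/-- P2d: the computation of an unambiguous program is best. -/
theorem unamb_best (hP : Unamb P) {e : C → Fin K} {t : Fin S} {l : List C} {z : Z} (h : P.Run I P.start l t)
    (hz : P.act t = Sum.inr z) : Best P e I P.start l t := by
  refine ⟨h, fun w' hw' => ?_, fun w' hw' hl => ?_⟩
  · by_contra hlt
    push Not at hlt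
    obtain ⟨r, hr1, hr2⟩ := run_split (l.take w'.length) (b := l.drop w'.length)
      (by rw [List.take_append_drop]; exact h)
    obtain ⟨-, h2⟩ := hP I (l.take w'.length) w' (l.drop w'.length) [] r t t t z z hr1 hr2 hz hw'
      (NProg.Run.nil t) hz (by rw [List.length_take]; omega)
    rw [h2] at hr2
    have h3 := run_final hr2 hz
    have h4 : (l.drop w'.length).length = 0 := by rw [h3]; rfl
    rw [List.length_drop] at h4
    omega
  · obtain ⟨h1, -⟩ := hP I l w' [] [] t t t t z z h (NProg.Run.nil t) hz hw' (NProg.Run.nil t) hz hl.symm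
    rw [h1]

end Pool.Agent.Helper98.PH
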